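import Pool.Agent.W668.Uni.Stmts

set_option autoImplicit false

/-! Evaluation lemmas, units. -/

open Set MeasureTheory
open scoped ContDiff Topology

namespace Pool.Agent.W375.Uni

open Pool.Agent.W668.Uni

/-- evaluation as a continuous ring homomorphism -/
noncomputable def evH (y t : ℝ) : Y →+* ℝ where
  toFun h := evY h y t
  map_one' := rfl
  map_mul' _ _ := rfl
  map_zero' := rfl
  map_add' _ _ := rfl

lemma evH_apply (y t : ℝ) (h : Y) : evH y t h = evY h y t := rfl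

lemma evY_mul (g h : Y) (y t : ℝ) : evY (g * h) y t = evY g y t * evY h y t := rfl
lemma evY_add (g h : Y) (y t : ℝ) : evY (g + h) y t = evY g y t + evY h y t := rfl
lemma evY_sub (g h : Y) (y t : ℝ) : evY (g - h) y t = evY g y t - evY h y t := rfl
lemma evY_neg (g : Y) (y t : ℝ) : evY (-g) y t = -evY g y t := rfl
lemma evY_one (y t : ℝ) : evY 1 y t = 1 := rfl
lemma evY_smul (a : ℝ) (g : Y) (y t : ℝ) : evY (a • g) y t = a * evY g y t := rfl
lemma evY_pow (g : Y) (n : ℕ) (y t : ℝ) : evY (g ^ n) y t = evY g y t ^ n := rfl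

lemma evY_w (y t : ℝ) (h0 : 0 ≤ t) (h1 : t ≤ Real.pi / 2) : evY w y t = Real.sin t := by
  unfold evY w
  simp only [ContinuousMap.coe_mk]
  rw [Set.projIcc_of_mem Th_le ⟨h0, h1⟩]

lemma evY_c (y t : ℝ) (h0 : 0 ≤ t) (h1 : t ≤ Real.pi / 2) : evY c y t = Real.cos t := by
  unfold evY c
  simp only [ContinuousMap.coe_mk]
  rw [Set.projIcc_of_mem Th_le ⟨h0, h1⟩]

lemma continuous_evY_t (h : Y) (y : ℝ) : Continuous (fun t => evY h y t) :=
  (continuous_evY h).comp (by fun_prop : Continuous fun t : ℝ => (y, t))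

lemma continuous_evH (y t : ℝ) : Continuous (evH y t) :=
  continuous_eval_const (F := C(I1 × Th, ℝ)) _

lemma evY_exp (h : Y) (y t : ℝ) : evY (NormedSpace.exp h) y t = Real.exp (evY h y t) := by
  have := NormedSpace.map_exp (evH y t) (continuous_evH y t) h
  rw [evH_apply, evH_apply] at this
  rw [this, Real.exp_eq_exp_ℝ]

lemma norm_w : ‖w‖ ≤ 1 := by
  refine (ContinuousMap.norm_le _ zero_le_one).2 fun z => ?_
  exact Real.abs_sin_le_one _

lemma isUnit_one_add {x : Y} (h : ‖x‖ < 1) : IsUnit (1 + x) := by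
  have := isUnit_one_sub_of_norm_lt_one (x := -x) (by rwa [norm_neg])
  rwa [sub_neg_eq_add] at this

lemma isUnit_rho {ε : ℝ} {η : Y} (h : |ε| * ‖η‖ ≤ 1 / 4) : IsUnit (rho ε η) := by
  unfold rho
  apply isUnit_one_add
  rw [norm_smul, Real.norm_eq_abs]
  calc |ε| * ‖w * η‖ ≤ |ε| * (1 * ‖η‖) := by
        gcongr
        exact (norm_mul_le _ _).trans (mul_le_mul_of_nonneg_right norm_w (norm_nonneg _))
    _ ≤ 1 / 4 := by rwa [one_mul]
    _ < 1 := by norm_num

lemma isUnit_dd {ε : ℝ} {η : Y} (h : |ε| * ‖η‖ ≤ 1 / 4) : IsUnit (dd ε η) := by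
  unfold dd
  apply isUnit_one_add
  have e1 : ε • (w ^ 3 * xi ε η) = w ^ 3 * ((2 : ℝ) • (ε • η) + w * (ε • η) ^ 2) := by
    unfold xi
    ext z
    simp only [ContinuousMap.smul_apply, ContinuousMap.mul_apply, ContinuousMap.add_apply,
      ContinuousMap.pow_apply, smul_eq_mul]
    ring
  rw [e1]
  have e2 : ‖ε • η‖ ≤ 1 / 4 := by rwa [norm_smul, Real.norm_eq_abs]
  have e3 : ‖(w : Y) ^ 3‖ ≤ 1 := (norm_pow_le' _ (by norm_num)).trans (pow_le_one₀ (norm_nonneg _) norm_w)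
  have e4 : ‖(2 : ℝ) • (ε • η) + w * (ε • η) ^ 2‖ ≤ 9 / 16 := by
    calc ‖(2 : ℝ) • (ε • η) + w * (ε • η) ^ 2‖ ≤ ‖(2 : ℝ) • (ε • η)‖ + ‖w * (ε • η) ^ 2‖ :=
          norm_add_le _ _
      _ ≤ 2 * (1 / 4) + 1 * (1 / 4) ^ 2 := by
          gcongr
          · rw [norm_smul, Real.norm_eq_abs, abs_two]
            gcongr
          · refine (norm_mul_le _ _).trans ?_
            gcongr
            · exact norm_w
            · exact (norm_pow_le' _ (by norm_num)).trans (by gcongr)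
      _ = 9 / 16 := by norm_num
  calc ‖w ^ 3 * ((2 : ℝ) • (ε • η) + w * (ε • η) ^ 2)‖ ≤ 1 * (9 / 16) := by
        refine (norm_mul_le _ _).trans ?_
        gcongr
    _ < 1 := by norm_num

lemma rhoi_mul {ε : ℝ} {η : Y} (h : |ε| * ‖η‖ ≤ 1 / 4) : rhoi ε η * rho ε η = 1 :=
  Ring.inverse_mul_cancel _ (isUnit_rho h)

lemma di_mul {ε : ℝ} {η : Y} (h : |ε| * ‖η‖ ≤ 1 / 4) : di ε η * dd ε η = 1 :=
  Ring.inverse_mul_cancel _ (isUnit_dd h)

lemma hasDerivAt_inverse {f : ℝ → Y} {f' : Y} {s : ℝ} (hf : HasDerivAt f f' s)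
    (hu : IsUnit (f s)) :
    HasDerivAt (fun x => Ring.inverse (f x)) (-(Ring.inverse (f s) ^ 2 * f')) s := by
  obtain ⟨u, hu⟩ := hu
  have h1 := hasFDerivAt_ringInverse (𝕜 := ℝ) u
  rw [hu] at h1
  have h2 := h1.comp_hasDerivAt s hf
  refine h2.congr_deriv ?_
  have h3 : Ring.inverse (f s) = (↑u⁻¹ : Y) := by rw [← hu, Ring.inverse_unit]
  rw [h3]
  simp only [neg_apply, ContinuousLinearMap.mulLeftRight_apply]
  ring

end Pool.Agent.W375.Uni
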