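import Pool.Agent.W375.Uni.Basic

set_option autoImplicit false

/-! Derivative of the period map. -/

open Set MeasureTheory
open scoped ContDiff Topology

namespace Pool.Agent.W375.Uni

open Pool.Agent.W668.Uni

lemma dom_open (e₀ M : ℝ) : IsOpen (dom e₀ M) := by
  have h1 : IsOpen {p : ℝ × Y | |p.1| < e₀} :=
    isOpen_lt (continuous_abs.comp continuous_fst) continuous_const
  have h2 : IsOpen {p : ℝ × Y | ‖p.2‖ < M} :=
    isOpen_lt (continuous_norm.comp continuous_snd) continuous_const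
  exact h1.inter h2

lemma eventually_dom {e₀ M ε : ℝ} {F : Y} (G : Y) (h : (ε, F) ∈ dom e₀ M) :
    ∀ᶠ s : ℝ in 𝓝 0, (ε, F + s • G) ∈ dom e₀ M := by
  have hc : Continuous fun s : ℝ => (ε, F + s • G) := by fun_prop
  have h0 : (ε, F + (0 : ℝ) • G) ∈ dom e₀ M := by simpa using h
  exact hc.continuousAt.eventually_mem ((dom_open e₀ M).mem_nhds h0)

lemma eta_deriv (O : Ops) {M e₀ : ℝ} {η : ℝ × Y → Y} (hη : EtaSol O M e₀ η) {ε : ℝ} {F : Y}
    (hp : (ε, F) ∈ dom e₀ M) (G : Y) :
    ∃ h : Y, HasDerivAt (fun s : ℝ => η (ε, F + s • G)) h 0 ∧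
      rho ε (η (ε, F)) * h = -O.S3 (G * rho ε (η (ε, F)) + F * (ε • (w * h))) := by
  have hdiff : DifferentiableAt ℝ η (ε, F) :=
    (hη.smooth.contDiffAt ((dom_open e₀ M).mem_nhds hp)).differentiableAt (by simp)
  have hline : HasDerivAt (fun s : ℝ => ((ε, F + s • G) : ℝ × Y)) (0, G) 0 := by
    have h1 : HasDerivAt (fun s : ℝ => F + s • G) G 0 := by
      have := ((hasDerivAt_id (0 : ℝ)).smul_const G).const_add F
      simpa using this
    exact (hasDerivAt_const (0 : ℝ) ε).prodMk h1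
  have h0 : ((ε, F + (0 : ℝ) • G) : ℝ × Y) = (ε, F) := by simp
  have hd : HasDerivAt (fun s : ℝ => η (ε, F + s • G)) (fderiv ℝ η (ε, F) (0, G)) 0 := by
    have h2 : HasFDerivAt η (fderiv ℝ η (ε, F)) (ε, F + (0 : ℝ) • G) := by
      rw [h0]; exact hdiff.hasFDerivAt
    exact h2.comp_hasDerivAt (0 : ℝ) hline
  set h := fderiv ℝ η (ε, F) (0, G) with hh
  refine ⟨h, hd, ?_⟩
  set f : ℝ → Y := fun s => η (ε, F + s • G) with hf
  have hf0 : f 0 = η (ε, F) := by simp [hf]
  have hF : HasDerivAt (fun s : ℝ => F + s • G) G 0 := by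
    have := ((hasDerivAt_id (0 : ℝ)).smul_const G).const_add F
    simpa using this
  have hw : HasDerivAt (fun s : ℝ => w * f s) (w * h) 0 := by
    exact ((hasDerivAt_const (0 : ℝ) w).mul hd).congr_deriv (by rw [zero_mul, zero_add])
  have h1w : HasDerivAt (fun s : ℝ => 1 + ε • (w * f s)) (ε • (w * h)) 0 :=
    (hw.const_smul ε).const_add 1
  have hprod := hF.mul h1w
  have hS := (O.S3.hasFDerivAt (x := (F + (0 : ℝ) • G) * (1 + ε • (w * f 0)))).comp_hasDerivAt
    (0 : ℝ) hprod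
  have hsq : HasDerivAt (fun s : ℝ => w * f s ^ 2) (w * (f 0 * h + f 0 * h)) 0 := by
    have h3 := hd.mul hd
    have h4 := (hasDerivAt_const (0 : ℝ) w).mul h3
    refine (h4.congr_deriv ?_).congr_of_eventuallyEq ?_
    · simp only [zero_mul, zero_add]
      show w * (h * f 0 + f 0 * h) = _
      ring
    · refine Filter.Eventually.of_forall fun s => ?_
      show w * f s ^ 2 = w * (f s * f s)
      ring
  have hphi := hS.neg.sub (hsq.const_smul (ε / 2))
  have heq : f =ᶠ[𝓝 0] fun s => -O.S3 ((F + s • G) * (1 + ε • (w * f s))) -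
      (ε / 2) • (w * f s ^ 2) := by
    filter_upwards [eventually_dom G hp] with s hs
    exact hη.eqn _ hs
  have huniq := hd.unique (hphi.congr_of_eventuallyEq heq)
  have hr : rho ε (f 0) = 1 + ε • (w * f 0) := rfl
  rw [← hf0, hr]
  have hkey : h = -O.S3 (G * (1 + ε • (w * f 0)) + F * (ε • (w * h))) -
      (ε / 2) • (w * (f 0 * h + f 0 * h)) := by
    refine huniq.trans ?_
    simp only [zero_smul, add_zero]
  have : (ε / 2) • (w * (f 0 * h + f 0 * h)) = ε • (w * f 0) * h := by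
    ext z
    simp only [ContinuousMap.smul_apply, ContinuousMap.mul_apply, smul_eq_mul,
      ContinuousMap.add_apply]
    ring
  rw [this] at hkey
  rw [add_mul, one_mul]
  exact eq_sub_iff_add_eq.mp hkey

lemma X_ext {f g : X} (h : ∀ y : ℝ, 0 ≤ y → y ≤ 1 → evX f y = evX g y) : f = g := by
  ext z
  have := h z z.2.1 z.2.2
  unfold evX at this
  rwa [Set.projIcc_val] at this

lemma key (O : Ops) (ε : ℝ) (F G η h : Y) (hb : |ε| * ‖η‖ ≤ 1 / 4)
    (heq : rho ε η * h = -O.S3 (G * rho ε η + F * (ε • (w * h)))) :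
    O.W (F * (-(w ^ 2 * c * (rho ε η * h * di ε η ^ 2)))) =
      O.W (G * (rho ε η * EE O ε F η * KK O ε F η)) := by
  apply X_ext
  intro y _ _
  rw [O.W_ev, O.W_ev]
  set g : Y := F * w * c * di ε η ^ 2 * Ei O ε F η with hg
  set fK : ℝ → ℝ := fun t => evY (KK O ε F η) y t with hfK
  set fE : ℝ → ℝ := fun t => evY (EE O ε F η) y t with hfE
  set fZ : ℝ → ℝ := fun t => Real.sin t ^ 3 * evY (rho ε η * h) y t with hfZ
  have cK : Continuous fK := continuous_evY_t _ _
  have cE : Continuous fE := continuous_evY_t _ _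
  have cZ : Continuous fZ := (Real.continuous_sin.pow 3).mul (continuous_evY_t _ _)
  have hpi : (0 : ℝ) ≤ Real.pi / 2 := Th_le
  have eK : ∀ t, 0 ≤ t → t ≤ Real.pi / 2 → fK t = ∫ s in t..(Real.pi / 2), evY g y s :=
    fun t h0 h1 => O.K_ev g y t h0 h1
  have eZ : ∀ t, 0 ≤ t → t ≤ Real.pi / 2 → fZ t =
      -∫ s in (0 : ℝ)..t, Real.sin s ^ 2 * evY (G * rho ε η + F * (ε • (w * h))) y s := by
    intro t h0 h1
    simp only [hfZ]
    rw [heq, evY_neg, mul_neg, O.S3_ev _ y t h0 h1]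
  have eE : ∀ t, fE t = Real.exp (evY (Gam O ε F η) y t) := fun t => evY_exp _ _ _
  have eEi : ∀ t, evY (Ei O ε F η) y t = Real.exp (-evY (Gam O ε F η) y t) := fun t => by
    unfold Ei
    rw [evY_exp, evY_neg]
  have nb : ∀ t ∈ Ioo (0 : ℝ) (Real.pi / 2), ∀ᶠ s in 𝓝 t, 0 ≤ s ∧ s ≤ Real.pi / 2 := by
    intro t ht
    filter_upwards [Ioo_mem_nhds ht.1 ht.2] with s hs
    exact ⟨hs.1.le, hs.2.le⟩
  have dK : ∀ t ∈ Ioo (0 : ℝ) (Real.pi / 2), HasDerivAt fK (-evY g y t) t := by
    intro t ht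
    have h1 : HasDerivAt (fun u => ∫ s in u..(Real.pi / 2), evY g y s) (-evY g y t) t :=
      intervalIntegral.integral_hasDerivAt_left
        ((continuous_evY_t g y).intervalIntegrable _ _)
        ((continuous_evY_t g y).stronglyMeasurableAtFilter _ _)
        (continuous_evY_t g y).continuousAt
    refine h1.congr_of_eventuallyEq ?_
    filter_upwards [nb t ht] with s hs
    exact eK s hs.1 hs.2
  have dG : ∀ t ∈ Ioo (0 : ℝ) (Real.pi / 2), HasDerivAt (fun u => evY (Gam O ε F η) y u)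
      (ε * evY (F * rhoi ε η) y t) t := by
    intro t ht
    have h1 : HasDerivAt (fun u => ∫ s in (0 : ℝ)..u, evY (F * rhoi ε η) y s)
        (evY (F * rhoi ε η) y t) t :=
      intervalIntegral.integral_hasDerivAt_right
        ((continuous_evY_t _ y).intervalIntegrable _ _)
        ((continuous_evY_t _ y).stronglyMeasurableAtFilter _ _)
        (continuous_evY_t _ y).continuousAt
    refine (h1.const_mul ε).congr_of_eventuallyEq ?_
    filter_upwards [nb t ht] with s hs
    unfold Gam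
    rw [evY_smul, O.J_ev _ y s hs.1 hs.2]
  have dE : ∀ t ∈ Ioo (0 : ℝ) (Real.pi / 2), HasDerivAt fE
      (fE t * (ε * evY (F * rhoi ε η) y t)) t := by
    intro t ht
    have h1 := (dG t ht).exp
    rw [← eE] at h1
    exact h1.congr_of_eventuallyEq (Filter.Eventually.of_forall fun s => eE s)
  have dZ : ∀ t ∈ Ioo (0 : ℝ) (Real.pi / 2), HasDerivAt fZ
      (-(Real.sin t ^ 2 * evY (G * rho ε η + F * (ε • (w * h))) y t)) t := by
    intro t ht
    have cc : Continuous fun s => Real.sin s ^ 2 * evY (G * rho ε η + F * (ε • (w * h))) y s :=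
      (Real.continuous_sin.pow 2).mul (continuous_evY_t _ y)
    have h1 : HasDerivAt (fun u => ∫ s in (0 : ℝ)..u,
        Real.sin s ^ 2 * evY (G * rho ε η + F * (ε • (w * h))) y s)
        (Real.sin t ^ 2 * evY (G * rho ε η + F * (ε • (w * h))) y t) t :=
      intervalIntegral.integral_hasDerivAt_right (cc.intervalIntegrable _ _)
        (cc.stronglyMeasurableAtFilter _ _) cc.continuousAt
    refine h1.neg.congr_of_eventuallyEq ?_
    filter_upwards [nb t ht] with s hs
    exact eZ s hs.1 hs.2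
  set D : ℝ → ℝ := fun t =>
    Real.sin t ^ 2 * evY (F * (-(w ^ 2 * c * (rho ε η * h * di ε η ^ 2)))) y t -
      Real.sin t ^ 2 * evY (G * (rho ε η * EE O ε F η * KK O ε F η)) y t with hD
  have c1 : Continuous fun t =>
      Real.sin t ^ 2 * evY (F * (-(w ^ 2 * c * (rho ε η * h * di ε η ^ 2)))) y t :=
    (Real.continuous_sin.pow 2).mul (continuous_evY_t _ y)
  have c2 : Continuous fun t =>
      Real.sin t ^ 2 * evY (G * (rho ε η * EE O ε F η * KK O ε F η)) y t :=
    (Real.continuous_sin.pow 2).mul (continuous_evY_t _ y)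
  have dPhi : ∀ t ∈ Ioo (0 : ℝ) (Real.pi / 2),
      HasDerivAt (fun t => fK t * (fE t * fZ t)) (D t) t := by
    intro t ht
    refine ((dK t ht).mul ((dE t ht).mul (dZ t ht))).congr_deriv ?_
    have hw := evY_w y t ht.1.le ht.2.le
    have hr : evY (rhoi ε η) y t * evY (rho ε η) y t = 1 := by
      rw [← evY_mul, rhoi_mul hb, evY_one]
    have hEE : evY (Ei O ε F η) y t * fE t = 1 := by
      rw [eEi, eE, ← Real.exp_add, neg_add_cancel, Real.exp_zero]
    simp only [hD, hfZ, hg, evY_mul, evY_add, evY_neg, evY_pow, evY_smul, hw, Pi.mul_apply]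
    set r := evY (rho ε η) y t
    set ri := evY (rhoi ε η) y t
    set d := evY (di ε η) y t
    set H := evY h y t
    set FF := evY F y t
    set GG := evY G y t
    set C := evY c y t
    set S := Real.sin t
    set Ee := evY (Ei O ε F η) y t
    have hfE' : evY (EE O ε F η) y t = fE t := rfl
    have hfK' : evY (KK O ε F η) y t = fK t := rfl
    rw [hfE', hfK']
    set k := fK t
    set e := fE t
    linear_combination (-(FF * S * C * d ^ 2 * (S ^ 3 * (r * H)))) * hEE +
      (k * e * ε * FF * S ^ 3 * H) * hr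
  have hint := intervalIntegral.integral_eq_sub_of_hasDerivAt_of_le hpi
    ((cK.mul (cE.mul cZ)).continuousOn) dPhi ((c1.sub c2).intervalIntegrable _ _)
  have z1 : fK (Real.pi / 2) = 0 := by
    rw [eK _ hpi le_rfl, intervalIntegral.integral_same]
  have z2 : fZ 0 = 0 := by simp [hfZ]
  simp only [Pi.mul_apply] at hint
  rw [z1, z2] at hint
  simp only [hD, zero_mul, mul_zero, sub_zero] at hint
  rw [intervalIntegral.integral_sub (c1.intervalIntegrable _ _) (c2.intervalIntegrable _ _)] at hint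
  exact sub_eq_zero.mp hint

lemma xi_deriv {ε : ℝ} {f : ℝ → Y} {h : Y} (hf : HasDerivAt f h 0) :
    HasDerivAt (fun s => xi ε (f s)) ((2 : ℝ) • (rho ε (f 0) * h)) 0 := by
  unfold xi
  have h3 := hf.mul hf
  have h4 := ((hasDerivAt_const (0 : ℝ) w).mul h3).const_smul ε
  have h5 := (hf.const_smul (2 : ℝ)).add h4
  refine (h5.congr_deriv ?_).congr_of_eventuallyEq ?_
  · unfold rho
    ext z
    simp only [ContinuousMap.smul_apply, ContinuousMap.mul_apply, ContinuousMap.add_apply,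
      smul_eq_mul, ContinuousMap.one_apply, ContinuousMap.zero_apply]
    ring
  · refine Filter.Eventually.of_forall fun s => ?_
    show (2 : ℝ) • f s + ε • (w * f s ^ 2) = (2 : ℝ) • f s + ε • (w * (f s * f s))
    rw [sq]

lemma dd_deriv {ε : ℝ} {f : ℝ → Y} {h : Y} (hf : HasDerivAt f h 0) :
    HasDerivAt (fun s => dd ε (f s)) (ε • (w ^ 3 * ((2 : ℝ) • (rho ε (f 0) * h)))) 0 := by
  unfold dd
  have h3 := xi_deriv (ε := ε) hf
  have h4 := (((hasDerivAt_const (0 : ℝ) (w ^ 3)).mul h3).const_smul ε).const_add (1 : Y)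
  refine h4.congr_deriv ?_
  simp

theorem der : P_der := by
  intro O M e₀ η hη p hp G
  obtain ⟨ε, F⟩ := p
  have hm : ((-ε, F) : ℝ × Y) ∈ dom e₀ M := by
    refine ⟨?_, hp.2⟩
    show |-ε| < e₀
    rw [abs_neg]
    exact hp.1
  obtain ⟨hp', dp, ep⟩ := eta_deriv O hη hp G
  obtain ⟨hm', dm, em⟩ := eta_deriv O hη hm G
  have bp := hη.bound _ hp
  have bm := hη.bound _ hm
  simp only at bp bm
  set fp : ℝ → Y := fun s => η (ε, F + s • G) with hfp
  set fm : ℝ → Y := fun s => η (-ε, F + s • G) with hfm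
  have fp0 : fp 0 = η (ε, F) := by simp [hfp]
  have fm0 : fm 0 = η (-ε, F) := by simp [hfm]
  rw [← fp0] at bp ep
  rw [← fm0] at bm em
  have k1 := key O ε F G (fp 0) hp' bp ep
  have k2 := key O (-ε) F G (fm 0) hm' bm em
  -- derivatives
  have x1 := xi_deriv (ε := ε) dp
  have x2 := xi_deriv (ε := -ε) dm
  have i1 := hasDerivAt_inverse (dd_deriv (ε := ε) dp) (isUnit_dd bp)
  have i2 := hasDerivAt_inverse (dd_deriv (ε := -ε) dm) (isUnit_dd bm)
  have hk := (((((hasDerivAt_const (0 : ℝ) (w ^ 2 * c)).mul (x1.add x2)).mul i1).mul i2)).neg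
  have hF : HasDerivAt (fun s : ℝ => F + s • G) G 0 := by
    have := ((hasDerivAt_id (0 : ℝ)).smul_const G).const_add F
    simpa using this
  have hT := (O.W.hasFDerivAt
    (x := (F + (0 : ℝ) • G) * kapE ε (fp 0) (fm 0))).comp_hasDerivAt (0 : ℝ) (hF.mul hk)
  refine (hT.congr_deriv ?_).congr_of_eventuallyEq (Filter.Eventually.of_forall fun s => rfl)
  -- the algebra
  have e1 : di ε (fp 0) * dd ε (fp 0) = 1 := di_mul bp
  have e2 : di (-ε) (fm 0) * dd (-ε) (fm 0) = 1 := di_mul bm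
  have hkH : kH O η (ε, F) = kapE ε (fp 0) (fm 0) + (2 : ℝ) •
      (rho ε (fp 0) * EE O ε F (fp 0) * KK O ε F (fp 0) +
        rho (-ε) (fm 0) * EE O (-ε) F (fm 0) * KK O (-ε) F (fm 0)) := by
    unfold kH kapH
    simp only
    rw [fp0, fm0]
  have rhs : O.W (G * kH O η (ε, F)) = O.W (G * kapE ε (fp 0) (fm 0)) +
      (2 : ℝ) • O.W (F * (-(w ^ 2 * c * (rho ε (fp 0) * hp' * di ε (fp 0) ^ 2)))) +
      (2 : ℝ) • O.W (F * (-(w ^ 2 * c * (rho (-ε) (fm 0) * hm' * di (-ε) (fm 0) ^ 2)))) := by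
    rw [k1, k2, hkH, ← map_smul, ← map_smul, ← map_add, ← map_add]
    congr 1
    ext z
    simp only [ContinuousMap.smul_apply, ContinuousMap.mul_apply, ContinuousMap.add_apply,
      smul_eq_mul]
    ring
  rw [rhs, ← map_smul, ← map_smul, ← map_add, ← map_add]
  congr 1
  ext z
  have e1z := congrArg (fun f : Y => f z) e1
  have e2z := congrArg (fun f : Y => f z) e2
  unfold dd at e1z e2z
  simp only [ContinuousMap.smul_apply, ContinuousMap.mul_apply, ContinuousMap.add_apply,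
    smul_eq_mul, ContinuousMap.one_apply, ContinuousMap.pow_apply] at e1z e2z
  simp only [kapE, Pi.mul_apply, Pi.add_apply, Pi.neg_apply, ContinuousMap.smul_apply,
    ContinuousMap.mul_apply, ContinuousMap.add_apply, ContinuousMap.neg_apply,
    smul_eq_mul, ContinuousMap.pow_apply,
    zero_smul, add_zero, zero_mul, zero_add]
  show _ = _
  have d1 : Ring.inverse (dd ε (fp 0)) = di ε (fp 0) := rfl
  have d2 : Ring.inverse (dd (-ε) (fm 0)) = di (-ε) (fm 0) := rfl
  rw [d1, d2]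
  set P := di ε (fp 0) z
  set Q := di (-ε) (fm 0) z
  set x := xi ε (fp 0) z
  set x' := xi (-ε) (fm 0) z
  set a := rho ε (fp 0) z
  set a' := rho (-ε) (fm 0) z
  set S := w z
  set C := c z
  set FF := F z
  set GG := G z
  set h := hp' z
  set h' := hm' z
  linear_combination (-2 * FF * S ^ 2 * C) * (a * h * (-(P * Q)) + a' * h' * Q ^ 2) * e1z +
    (-2 * FF * S ^ 2 * C) * (a * h * P ^ 2 - a' * h' * P * Q) * e2z

end Pool.Agent.W375.Uni
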